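import Mathlib
namespace Pool.Agent.H.MP_48685d_an
open Set Filter Topology MeasureTheory Metric Real

lemma ci {g : ℂ → ℝ} (h : ContinuousOn g (closedBall 0 |1|)) : CircleIntegrable g 0 1 :=
  (h.mono (by simpa using sphere_subset_closedBall)).circleIntegrable zero_le_one

lemma sub {φ : ℂ → ℂ} (B : AnalyticOnNhd ℂ φ (closedBall 0 |1|)) {p : ℝ} (p0 : 0 < p) :
    ‖φ 0‖ ^ p ≤ circleAverage (‖φ ·‖ ^ p) 0 1 := by
  classical
  by_cases z : φ 0 = 0
  · simpa [z, p0.ne'] using circleAverage_nonneg_of_nonneg fun _ _ => by positivity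
  have a := norm_pos_iff.2 z
  have j : log ‖φ 0‖ ≤ circleAverage (log ‖φ ·‖) 0 1 := by
    rw [B.circleAverage_log_norm one_ne_zero z, le_add_iff_nonneg_left]
    refine finsum_nonneg fun u => ?_
    by_cases c : u ∈ closedBall (0 : ℂ) |1|
    · refine mul_nonneg (mod_cast MeromorphicOn.AnalyticOnNhd.divisor_nonneg B u) ?_
      rw [one_mul, log_inv, neg_nonneg]
      exact log_nonpos (norm_nonneg _) (by simpa using c)
    simp [Function.locallyFinsuppWithin.apply_eq_zero_of_notMem _ c]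
  have e : (log ‖φ ·‖) =ᶠ[codiscreteWithin (sphere 0 |1|)]
      fun u => if φ u = 0 then log ‖φ 0‖ - p⁻¹ else log ‖φ u‖ := by
    filter_upwards [codiscreteWithin_mono sphere_subset_closedBall (B.preimage_zero_mem_codiscreteWithin
      z (by simp) (isConnected_closedBall (abs_nonneg _)))] with u hu
    exact (if_neg hu).symm
  have i := (B.mono
    sphere_subset_closedBall).meromorphicOn.circleIntegrable_log_norm.congr_codiscreteWithin e
  rw [circleAverage_congr_codiscreteWithin e one_ne_zero] at j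
  have c : ContinuousOn (‖φ ·‖ ^ p) _ := B.continuousOn.norm.rpow_const fun _ _ => .inr p0.le
  have q : 0 < ‖φ 0‖ ^ p := by positivity
  replace j := j.trans (circleAverage_mono
    (f₂ := fun u => (p * ‖φ 0‖ ^ p)⁻¹ • ‖φ u‖ ^ p + (log ‖φ 0‖ - p⁻¹)) i
    (ci (by fun_prop)) fun u _ => by
      split_ifs with k
      · exact le_add_of_nonneg_left (by positivity)
      have := log_le_sub_one_of_pos (div_pos (rpow_pos_of_pos (norm_pos_iff.2 k) p) q)
      rw [log_div (by positivity) q.ne', log_rpow (norm_pos_iff.2 k), log_rpow a] at this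
      refine le_of_mul_le_mul_left ?_ p0
      rw [smul_eq_mul, mul_add, mul_sub, mul_inv, mul_assoc, mul_inv_cancel_left₀ p0.ne',
        mul_inv_cancel₀ p0.ne', ← div_eq_inv_mul]
      linarith)
  rw [circleAverage_fun_add (ci (by fun_prop)) (ci (by fun_prop)), circleAverage_fun_smul,
    circleAverage_const, smul_eq_mul, mul_inv, mul_assoc] at j
  rwa [add_sub, le_sub_iff_add_le', add_le_add_iff_right, le_mul_iff_one_le_right (inv_pos.2 p0),
    le_inv_mul_iff₀ q, mul_one] at j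

lemma cpt {X : Type} [TopologicalSpace X] {s : Set X} (hs : IsCompact s) {g h : X → ℝ}
    (hg : Continuous g) (hh : Continuous h) (h0 : ∀ x ∈ s, 0 ≤ h x ∧ (h x = 0 → g x < 0)) :
    ∃ K, 0 ≤ K ∧ ∀ x ∈ s, g x ≤ K * h x := by
  obtain ⟨t, h1, t0⟩ := (((hs.eventually_forall_of_forall_eventually (x₀ := (0 : ℝ))
    (P := fun t y => t * g y < h y ∨ g y < 0) fun y hy => by
      rcases (h0 y hy).1.eq_or_lt with e | e
      · exact ((hg.comp continuous_snd).continuousAt.eventually_lt continuousAt_const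
          ((h0 y hy).2 e.symm)).mono fun _ => .inr
      · exact (ContinuousAt.eventually_lt (f := fun z : ℝ × X => z.1 * g z.2)
          (g := fun z => h z.2) (by fun_prop) (by fun_prop) (by simpa)).mono fun _ => .inl).filter_mono
    nhdsWithin_le_nhds).and (self_mem_nhdsWithin (s := Ioi 0))).exists
  replace t0 : 0 < t := t0
  refine ⟨t⁻¹, by positivity, fun x hx => (h1 x hx).elim (fun e => (le_inv_mul_iff₀ t0).2 e.le)
    fun e => e.le.trans (mul_nonneg (by positivity) (h0 x hx).1)⟩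

lemma av3 {g0 g1 g2 g3 : ℂ → ℝ} (h0 : ContinuousOn g0 (closedBall 0 |1|))
    (h1 : ContinuousOn g1 (closedBall 0 |1|)) (h2 : ContinuousOn g2 (closedBall 0 |1|))
    (h3 : ContinuousOn g3 (closedBall 0 |1|)) {a b c d : ℝ}
    (h : ∀ z, g0 z ≤ a * g1 z + b * g2 z + c * g3 z + d) : circleAverage g0 0 1 ≤
      a * circleAverage g1 0 1 + b * circleAverage g2 0 1 + c * circleAverage g3 0 1 + d := by
  have := circleAverage_mono (ci h0) (f₂ := fun z => a • g1 z + b • g2 z + c • g3 z + d)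
    (ci (by fun_prop)) fun z _ => h z
  rwa [circleAverage_fun_add (ci (by fun_prop)) (ci (by fun_prop)), circleAverage_fun_add
    (ci (by fun_prop)) (ci (by fun_prop)), circleAverage_fun_add (ci (by fun_prop)) (ci (by fun_prop)),
    circleAverage_fun_smul, circleAverage_fun_smul, circleAverage_fun_smul, circleAverage_const] at this

variable {p ε : ℝ} (p0 : 0 < p) (hε : 0 < ε)
include p0 hε

lemma ptw : ∃ β K : ℝ, 0 ≤ β ∧ 0 ≤ K ∧ ∀ z a : ℂ, ‖z - a‖ ^ p - ε * ‖a‖ ^ p -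
    β * (2 ^ p * ‖a‖ ^ p - ‖z + a‖ ^ p) ≤ K * (‖z‖ ^ (p / 2) - ‖a‖ ^ (p / 2)) ^ 2 := by
  have c : ∀ {q : ℝ}, 0 < q → Continuous fun x : ℝ => x ^ q := fun h => continuous_rpow_const h.le
  have c1 := c p0
  have c2 := c (half_pos p0)
  obtain ⟨β, β0, h1⟩ := cpt ((isCompact_sphere (0 : ℂ) 1).prod (isCompact_sphere (0 : ℂ) 1))
    (g := fun z => ‖z.1 - z.2‖ ^ p - ε / 2) (h := fun z => 2 ^ p - ‖z.1 + z.2‖ ^ p)
    ((c1.comp (by fun_prop)).sub continuous_const) (continuous_const.sub (c1.comp (by fun_prop)))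
    fun z hz => by
      have e1 := mem_sphere_zero_iff_norm.1 hz.1
      have e2 := mem_sphere_zero_iff_norm.1 hz.2
      refine ⟨sub_nonneg.2 (rpow_le_rpow (norm_nonneg _) ((norm_add_le_of_le e1.le e2.le).trans
        (by norm_num)) p0.le), fun h => ?_⟩
      have e3 := (rpow_left_inj zero_le_two (norm_nonneg _) p0.ne').1 (sub_eq_zero.1 h)
      have e4 := parallelogram_law_with_norm ℂ z.1 z.2
      rw [← e3, e1, e2] at e4
      rw [mul_self_eq_zero.1 (show ‖z.1 - z.2‖ * ‖z.1 - z.2‖ = 0 by linarith), zero_rpow p0.ne']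
      linarith
  obtain ⟨K, K0, h2⟩ := cpt (isCompact_sphere (0 : ℂ × ℂ) 1)
    (g := fun z => ‖z.1 - z.2‖ ^ p - ε * ‖z.2‖ ^ p - β * (2 ^ p * ‖z.2‖ ^ p - ‖z.1 + z.2‖ ^ p))
    (h := fun z => (‖z.1‖ ^ (p / 2) - ‖z.2‖ ^ (p / 2)) ^ 2)
    (((c1.comp (by fun_prop)).sub (continuous_const.mul (c1.comp (by fun_prop)))).sub
      (continuous_const.mul ((continuous_const.mul (c1.comp (by fun_prop))).sub (c1.comp (by fun_prop)))))
    (((c2.comp (by fun_prop)).sub (c2.comp (by fun_prop))).pow 2) fun z hz => ⟨sq_nonneg _, fun h => by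
      have e1 := (rpow_left_inj (norm_nonneg _) (norm_nonneg _) (half_pos p0).ne').1
        (sub_eq_zero.1 (pow_eq_zero_iff two_ne_zero |>.1 h))
      rw [mem_sphere_zero_iff_norm, Prod.norm_def, e1, max_self] at hz
      have := h1 z ⟨mem_sphere_zero_iff_norm.2 (e1.trans hz), mem_sphere_zero_iff_norm.2 hz⟩
      simp only [hz, one_rpow]; linarith⟩
  refine ⟨β, K, β0, K0, fun z a => ?_⟩
  by_cases h : (z, a) = 0
  · simp [Prod.mk_eq_zero.1 h, p0.ne']
  have N0 := norm_pos_iff.2 h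
  have h3 := h2 ((‖(z, a)‖⁻¹ : ℝ) • (z, a)) (by
    rw [mem_sphere_zero_iff_norm, norm_smul, norm_inv, norm_norm, inv_mul_cancel₀ N0.ne'])
  have h4 : (‖(z, a)‖⁻¹ ^ (p / 2)) ^ 2 = ‖(z, a)‖⁻¹ ^ p := by
    rw [← rpow_natCast, ← rpow_mul (by positivity)]; simp
  have h5 : 0 < ‖(z, a)‖⁻¹ ^ p := by positivity
  simp only [Prod.smul_mk, ← smul_sub, ← smul_add, norm_smul, norm_inv, norm_norm,
    mul_rpow (inv_nonneg.2 N0.le) (norm_nonneg _), ← mul_sub, mul_pow, h4] at h3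
  refine le_of_mul_le_mul_left ?_ h5
  linarith

lemma KI : ∃ K : ℝ, 0 ≤ K ∧ ∀ φ : ℂ → ℂ, AnalyticOnNhd ℂ φ (closedBall 0 |1|) →
    circleAverage (‖φ · - φ 0‖ ^ p) 0 1 + K * ‖φ 0‖ ^ p ≤
      ε * ‖φ 0‖ ^ p + K * circleAverage (‖φ ·‖ ^ p) 0 1 := by
  obtain ⟨β, K, β0, K0, h⟩ := ptw p0 hε
  refine ⟨K, K0, fun φ B => ?_⟩
  have c : ∀ {q : ℝ} (a : ℂ), 0 < q → ContinuousOn (‖φ · + a‖ ^ q) (closedBall 0 |1|) := fun a h =>
    (B.continuousOn.add continuousOn_const).norm.rpow_const fun _ _ => .inr h.le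
  have c1 := c (-φ 0) p0
  have c2 := c 0 p0
  have c3 := c 0 (half_pos p0)
  have c4 := c (φ 0) p0
  simp only [add_zero, ← sub_eq_add_neg] at c1 c2 c3
  have h1 := sub (B.add (analyticOnNhd_const (v := φ 0))) p0
  have h2 := mul_le_mul_of_nonneg_left (sub B (half_pos p0)) (rpow_nonneg (norm_nonneg (φ 0)) (p / 2))
  have h3 : ∀ z : ℂ, ‖z‖ ^ (p / 2) * ‖z‖ ^ (p / 2) = ‖z‖ ^ p := fun z => by
    rw [← rpow_add' (norm_nonneg _) (by simp [p0.ne']), add_halves]
  have h4 := av3 c1 c2 c3 c4 (a := K) (b := -2 * K * ‖φ 0‖ ^ (p / 2)) (c := -β)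
    (d := (K + ε + β * 2 ^ p) * ‖φ 0‖ ^ p) fun z => by
      have := h (φ z) (φ 0)
      rw [sub_sq, sq, sq, h3, h3] at this
      linarith
  simp only [Pi.add_apply, ← two_mul, norm_mul, Complex.norm_two,
    mul_rpow zero_le_two (norm_nonneg _)] at h1
  rw [h3] at h2
  nlinarith [mul_le_mul_of_nonneg_left h1 β0, mul_le_mul_of_nonneg_left h2 K0]

omit p0 hε in
lemma lin {g : ℂ → ℝ} (h : ContinuousOn g (closedBall 0 |1|)) (h0 : ∀ z, 0 ≤ g z) :
    ∫⁻ θ in Ioc 0 (2 * π), .ofReal (g (circleMap 0 1 θ)) =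
      .ofReal (2 * π) * .ofReal (circleAverage g 0 1) := by
  rw [← ofReal_integral_eq_lintegral_ofReal (ci h).1 (.of_forall fun _ => h0 _), ← ENNReal.ofReal_mul
    two_pi_pos.le, circleAverage, smul_eq_mul, mul_inv_cancel_left₀ two_pi_pos.ne',
    intervalIntegral.integral_of_le two_pi_pos.le]

lemma KI' : ∃ K : ℝ, ∀ φ : ℂ → ℂ, AnalyticOnNhd ℂ φ (closedBall 0 |1|) →
    (∫⁻ θ in Ioc 0 (2 * π), .ofReal (‖φ (circleMap 0 1 θ) - φ 0‖ ^ p)) +
      .ofReal (2 * π) * .ofReal K * .ofReal (‖φ 0‖ ^ p) ≤ .ofReal (2 * π) * .ofReal ε *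
        .ofReal (‖φ 0‖ ^ p) + .ofReal K * ∫⁻ θ in Ioc 0 (2 * π), .ofReal (‖φ (circleMap 0 1 θ)‖ ^ p) := by
  obtain ⟨K, K0, h⟩ := KI p0 hε
  refine ⟨K, fun φ B => ?_⟩
  rw [lin (g := (‖φ · - φ 0‖ ^ p)) ((B.continuousOn.sub continuousOn_const).norm.rpow_const
    fun _ _ => .inr p0.le) fun _ => by positivity, lin (g := (‖φ ·‖ ^ p))
    (B.continuousOn.norm.rpow_const fun _ _ => .inr p0.le) fun _ => by positivity, mul_left_comm,
    mul_assoc, mul_assoc, ← mul_add, ← mul_add, ← ENNReal.ofReal_mul K0, ← ENNReal.ofReal_mul K0,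
    ← ENNReal.ofReal_mul hε.le, ← ENNReal.ofReal_add (circleAverage_nonneg_of_nonneg fun _ _ => by
      positivity) (by positivity), ← ENNReal.ofReal_add (by positivity) (mul_nonneg K0
      (circleAverage_nonneg_of_nonneg fun _ _ => by positivity))]
  exact mul_le_mul_right (ENNReal.ofReal_le_ofReal (h φ B)) _

end Pool.Agent.H.MP_48685d_an
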