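import Pool.Agent.H.MP_48685d_an.A
namespace Pool.Agent.H.MP_48685d_an
open Set Filter Topology MeasureTheory Metric Real Complex
open scoped ENNReal

noncomputable def w (s : ℝ) : ℂ := circleMap 0 1 (π + 2 * Real.arctan s)
noncomputable def ρ (s : ℝ) : ℝ≥0∞ := .ofReal (2 / (1 + s ^ 2))
noncomputable def L (r : ℝ) (z : ℂ) : ℂ := I * (1 + r * z) / (1 - r * z)

lemma w_eq (s : ℝ) : w s * (s + I) = s - I := by
  have h1 : (Real.cos (Real.arctan s) : ℂ) ^ 2 * (1 + s ^ 2) = 1 := by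
    norm_cast; rw [cos_sq_arctan]; field_simp
  have h2 : (Real.sin (Real.arctan s) : ℂ) = s * Real.cos (Real.arctan s) := by
    norm_cast; rw [sin_arctan, cos_arctan]; ring
  have h3 : w s = -(Real.cos (Real.arctan s) + Real.sin (Real.arctan s) * I) ^ 2 := by
    rw [ofReal_cos, ofReal_sin, ← exp_mul_I, ← Complex.exp_nat_mul, w, circleMap_zero]
    push_cast
    rw [add_mul, Complex.exp_add, exp_pi_mul_I, mul_assoc]; simp
  rw [h3, h2]
  linear_combination (s - I) * h1 - (Real.cos (Real.arctan s) : ℂ) ^ 2 * (s ^ 3 + s ^ 2 * I + 2 * s) * I_sq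

lemma chg (g : ℂ → ℝ≥0∞) : ∫⁻ θ in Ioc 0 (2 * π), g (circleMap 0 1 θ) = ∫⁻ s, ρ s * g (w s) := by
  have h := lintegral_image_eq_lintegral_abs_deriv_mul MeasurableSet.univ
    (f := fun s => π + 2 * Real.arctan s) (f' := fun s => 2 / (1 + s ^ 2))
    (fun s _ => by simpa [div_eq_mul_inv] using (Real.hasDerivAt_arctan s).const_mul 2)
    (fun a _ b _ h => Real.arctan_injective (by simpa using h)) fun θ => g (circleMap 0 1 θ)
  have e : (fun s => π + 2 * Real.arctan s) '' univ = Ioo 0 (2 * π) := by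
    ext θ
    refine ⟨?_, fun h => ⟨Real.tan ((θ - π) / 2), trivial, by
      simp only; rw [Real.arctan_tan (by linarith [h.1]) (by linarith [h.2])]; ring⟩⟩
    rintro ⟨s, -, rfl⟩
    constructor <;> linarith [neg_pi_div_two_lt_arctan s, arctan_lt_pi_div_two s]
  rw [e, Measure.restrict_univ, setLIntegral_congr Ioo_ae_eq_Ioc] at h
  exact h.trans (lintegral_congr fun s => by rw [abs_of_nonneg (by positivity)]; rfl)

lemma L_ne {r : ℝ} (h : |r| < 1) {z : ℂ} (hz : z ∈ closedBall 0 |1|) :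
    1 - r * z ≠ 0 ∧ 0 < (L r z).im := by
  have h1 : ‖r * z‖ < 1 := by
    rw [norm_mul, norm_real]
    exact (mul_le_of_le_one_right (abs_nonneg _) (by simpa using hz)).trans_lt h
  have h2 : 1 - r * z ≠ 0 := sub_ne_zero.2 fun e => by simp [← e] at h1
  refine ⟨h2, ?_⟩
  rw [← sq_lt_one_iff₀ (norm_nonneg _), Complex.sq_norm, normSq_apply] at h1
  rw [L, mul_div_assoc, I_mul_im, div_re, ← add_div]
  generalize r * z = a at *
  exact div_pos (by simp; linarith) (normSq_pos.2 h2)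

noncomputable def rr (k : ℕ) : ℝ := k / (k + 1)

lemma rr_lt (k : ℕ) : |rr k| < 1 := by
  rw [rr, abs_of_nonneg (by positivity), div_lt_one (by positivity)]; simp

lemma w_mem (s : ℝ) : w s ∈ closedBall (0 : ℂ) |1| := by simp [w]

lemma L_tend (s : ℝ) : Tendsto (fun k => L (rr k) (w s)) atTop (𝓝 s) := by
  have h0 : (s : ℂ) + I ≠ 0 := fun h => by simpa using congrArg im h
  have h1 : w s = (s - I) / (s + I) := eq_div_of_mul_eq h0 (w_eq s)
  have h2 : 1 - ((1 : ℝ) : ℂ) * w s ≠ 0 := by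
    rw [h1]; field_simp; simp [h0]
  have h3 : ContinuousAt (fun r : ℝ => L r (w s)) 1 := by unfold L; fun_prop (disch := assumption)
  have h4 : L 1 (w s) = s := by rw [L, div_eq_iff h2, h1]; field_simp; simp; ring
  exact h4 ▸ h3.tendsto.comp (tendsto_natCast_div_add_atTop (1 : ℝ))

variable {V : Type} [NormedAddCommGroup V] [NormedSpace ℝ V] [MeasurableSpace V] [BorelSpace V]
  (μ : Measure V)

noncomputable def D (p : ℝ) (f g : V → ℂ) : ℝ≥0∞ := ∫⁻ x, .ofReal (‖f x - g x‖ ^ p) ∂μ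

variable {μ} {p : ℝ} (p0 : 0 < p) (p1 : p ≤ 1)
include p0 p1

omit [NormedSpace ℝ V] [BorelSpace V] [NormedAddCommGroup V] in
lemma D_tri {f g : V → ℂ} (hf : Measurable f) (hg : Measurable g) (h : V → ℂ) :
    D μ p f h ≤ D μ p f g + D μ p g h := by
  unfold D
  rw [← lintegral_add_left (by fun_prop)]
  refine lintegral_mono fun x => ?_
  rw [← ENNReal.ofReal_add (by positivity) (by positivity)]
  exact ENNReal.ofReal_le_ofReal ((rpow_le_rpow (norm_nonneg _) (norm_sub_le_norm_sub_add_norm_sub _ _ _)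
    p0.le).trans (Real.rpow_add_le_add_rpow (norm_nonneg _) (norm_nonneg _) p0.le p1))

omit [NormedSpace ℝ V] [BorelSpace V] [NormedAddCommGroup V] p0 p1 in
lemma D_comm (f g : V → ℂ) : D μ p f g = D μ p g f := by simp only [D, norm_sub_rev]

omit p0 p1 in
lemma ρm : Measurable ρ := by unfold ρ; fun_prop

omit p0 p1 in
lemma ρ1 : ∫⁻ s, ρ s = .ofReal (2 * π) := by simpa using (chg 1).symm

variable [SFinite μ] {U : V → ℂ → ℂ}
  (hc : ContinuousOn (fun q : V × ℂ => U q.1 q.2) {q | 0 ≤ q.2.im})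
include hc

omit p0 p1 [NormedSpace ℝ V] in
lemma c1 {l : ℝ → ℂ} (h : Continuous l) (h' : ∀ s, 0 ≤ (l s).im) :
    Measurable fun q : V × ℝ => U q.1 (l q.2) :=
  (hc.comp_continuous (f := fun q : V × ℝ => (q.1, l q.2)) (by fun_prop) fun q => h' q.2).measurable

omit p0 p1 [NormedSpace ℝ V] in
lemma c2 (z : ℂ) (h : 0 ≤ z.im) : Measurable (U · z) :=
  (c1 hc continuous_const fun _ => h).comp (measurable_prodMk_right (y := (0 : ℝ)))

omit p0 p1 [NormedSpace ℝ V] in
lemma c3 (k : ℕ) : Measurable fun q : V × ℝ => U q.1 (L (rr k) (w q.2)) :=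
  c1 hc (l := fun s => L (rr k) (w s)) (by
    unfold L
    exact .div (by unfold w; fun_prop) (by unfold w; fun_prop) fun s => (L_ne (rr_lt k) (w_mem s)).1)
    fun s => (L_ne (rr_lt k) (w_mem s)).2.le

omit p0 p1 hc [NormedSpace ℝ V] [BorelSpace V] [NormedAddCommGroup V] in
lemma c4 {f : V × ℝ → ℂ} {g : V → ℂ} (hf : Measurable f) (hg : Measurable g) :
    Measurable fun s => D μ p (fun x => f (x, s)) g :=
  Measurable.lintegral_prod_left' (f := fun q : V × ℝ => ENNReal.ofReal (‖f q - g q.1‖ ^ p))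
    (by fun_prop)

omit p0 p1 hc [NormedSpace ℝ V] [BorelSpace V] [NormedAddCommGroup V] in
lemma sw {f : V × ℝ → ℂ} {g : V → ℂ} (hf : Measurable f) (hg : Measurable g) :
    ∫⁻ x, (∫⁻ s, ρ s * .ofReal (‖f (x, s) - g x‖ ^ p)) ∂μ = ∫⁻ s, ρ s * D μ p (fun x => f (x, s)) g := by
  have := ρm
  rw [lintegral_lintegral_swap (Measurable.aemeasurable (by unfold Function.uncurry; fun_prop))]
  exact lintegral_congr fun s => lintegral_const_mul' _ _ ENNReal.ofReal_ne_top

omit hc p1 [NormedSpace ℝ V] in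
lemma st1 {ε : ℝ} (hε : 0 < ε) : ∃ K : ℝ, ∀ (U : V → ℂ → ℂ),
    ContinuousOn (fun q : V × ℂ => U q.1 q.2) {q | 0 ≤ q.2.im} →
    (∀ x, DifferentiableOn ℂ (U x) {z | 0 < z.im}) → ∀ k,
    (∫⁻ s, ρ s * D μ p (U · (L (rr k) (w s))) (U · I)) + .ofReal (2 * π) * .ofReal K *
      D μ p (U · I) 0 ≤ .ofReal (2 * π) * .ofReal ε * D μ p (U · I) 0 +
      .ofReal K * ∫⁻ s, ρ s * D μ p (U · (L (rr k) (w s))) 0 := by
  obtain ⟨K, hK⟩ := KI' p0 hε
  refine ⟨K, fun U hc hd k => ?_⟩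
  have cI := c2 hc I (by simp)
  have := lintegral_mono (μ := μ) fun x => hK (fun z => U x (L (rr k) z)) fun z hz =>
    ((hd x).analyticOnNhd (isOpen_lt continuous_const continuous_im) _ (L_ne (rr_lt k) hz).2).comp
      (f := L (rr k)) (by
        unfold L
        exact .div (by fun_prop) (by fun_prop) (L_ne (rr_lt k) hz).1)
  simp only [show L (rr k) 0 = I by simp [L]] at this
  simp only [fun x => chg fun z => .ofReal (‖U x (L (rr k) z) - U x I‖ ^ p),
    fun x => chg fun z => .ofReal (‖U x (L (rr k) z)‖ ^ p)] at this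
  have e := sw (μ := μ) (p := p) (c3 hc k) (g := 0) measurable_const
  rw [lintegral_add_right _ (by fun_prop), lintegral_add_left (by fun_prop),
    lintegral_const_mul' _ _ (by finiteness), lintegral_const_mul' _ _ (by finiteness),
    lintegral_const_mul' _ _ (by finiteness), sw (c3 hc k) cI] at this
  simp only [D, Pi.zero_apply, sub_zero] at this e ⊢
  rwa [e] at this

section
variable {l : ℕ → ℝ → ℂ} (l1 : ∀ k, Measurable fun q : V × ℝ => U q.1 (l k q.2))
  (l2 : ∀ k s, 0 ≤ (l k s).im) (l3 : ∀ s : ℝ, Tendsto (l · s) atTop (𝓝 s))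
include l1 l2 l3

omit p0 p1 hc [NormedSpace ℝ V] [BorelSpace V] [NormedAddCommGroup V] in
lemma st2 {M m : ℝ≥0∞} (hM : M ≠ ⊤) (hm : m ≤ M) (hb : ∀ z : ℂ, 0 ≤ z.im → D μ p (U · z) 0 ≤ M)
    (hb' : ∀ z : ℂ, 0 ≤ z.im → z.im ≤ 1 → D μ p (U · z) 0 ≤ m) :
    Tendsto (fun k => ∫⁻ s, ρ s * max (D μ p (U · (l k s)) 0) m) atTop
      (𝓝 (.ofReal (2 * π) * m)) := by
  rw [← ρ1, ← lintegral_mul_const _ ρm]
  refine tendsto_lintegral_of_dominated_convergence (fun s => ρ s * M)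
    (fun k => (ρm.mul ((c4 (μ := μ) (l1 k) measurable_const).max measurable_const) :))
    (fun k => .of_forall fun s => mul_le_mul_right (max_le (hb _ (l2 k s)) hm) _)
    (by rw [lintegral_mul_const _ ρm, ρ1]; finiteness) (.of_forall fun s =>
      tendsto_const_nhds.congr' ?_)
  filter_upwards [((continuous_im.tendsto _).comp (l3 s)).eventually
    (ge_mem_nhds (a := 1) (by simp))] with k hk
  rw [max_eq_right (hb' _ (l2 k s) hk)]

omit p1 [NormedSpace ℝ V] in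
lemma st3 {g : V → ℂ} (hg : Measurable g) : ∫⁻ s : ℝ, ρ s * D μ p (U · s) g ≤
    liminf (fun k => ∫⁻ s, ρ s * D μ p (U · (l k s)) g) atTop := by
  refine le_trans (lintegral_mono fun s => ?_) (lintegral_liminf_le
    (f := fun k s => ρ s * D μ p (U · (l k s)) g) fun k => (ρm.mul (c4 (μ := μ) (l1 k) hg) :))
  simp only [D, ← lintegral_const_mul' _ _ (show ρ s ≠ ⊤ from ENNReal.ofReal_ne_top)]
  have h : ∀ x, Tendsto (fun k => ρ s * .ofReal (‖U x (l k s) - g x‖ ^ p)) atTop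
      (𝓝 (ρ s * .ofReal (‖U x s - g x‖ ^ p))) := fun x => by
    have : Tendsto (fun k => U x (l k s)) atTop (𝓝 (U x s)) :=
      (hc (x, s) (by simp)).tendsto.comp (f := fun k => (x, l k s)) (tendsto_nhdsWithin_iff.2
        ⟨tendsto_const_nhds.prodMk_nhds (l3 s), .of_forall fun k => l2 k s⟩)
    exact ENNReal.Tendsto.const_mul (ENNReal.tendsto_ofReal ((this.sub_const _).norm.rpow_const
      (.inr p0.le))) (.inr ENNReal.ofReal_ne_top)
  refine (lintegral_congr fun x => (h x).liminf_eq.symm).trans_le (lintegral_liminf_le fun k => ?_)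
  have := c2 hc _ (l2 k s)
  fun_prop
end

lemma st4 [μ.IsAddRightInvariant] {v : V} (ht : ∀ x z (s : ℝ), U x (z + s) = U (x + s • v) z)
    {g : V → ℂ} (hg : Measurable g) : D μ p (U · 0) g ≤ 9 * ∫⁻ s : ℝ, ρ s * D μ p (U · s) g := by
  have m1 : Measurable fun s : ℝ => 3 * (ρ s * D μ p (U · s) g) :=
    (ρm.mul (c4 (c1 hc continuous_ofReal (by simp)) hg)).const_mul _
  set ψ := fun s : ℝ => 3 * (ρ s * D μ p (U · s) g)
  have h4 : ∀ s ∈ Icc (0 : ℝ) 2, D μ p (U · s) g ≤ ψ s := fun s hs => by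
    refine le_trans ?_ (mul_assoc _ _ _).le
    refine le_mul_of_one_le_left' ?_
    rw [ρ, ← ENNReal.ofReal_ofNat, ← ENNReal.ofReal_mul (by norm_num), ENNReal.one_le_ofReal,
      mul_div_assoc', one_le_div (by positivity)]
    nlinarith [hs.1, hs.2]
  have h5 : ∀ s ∈ Icc (0 : ℝ) 1, ∀ t ∈ Icc (0 : ℝ) 1,
      D μ p (U · 0) g ≤ ψ s + (ψ t + ψ (s + t)) := fun s hs t ht' => by
    have e : D μ p (U · 0) (U · s) = D μ p (U · t) (U · (s + t : ℝ)) := by
      simp only [D, ofReal_add, ht, ← lintegral_add_right_eq_self (μ := μ)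
        (fun x => ENNReal.ofReal (‖U x 0 - U x s‖ ^ p)) (t • v), ← ht _ 0, zero_add]
    refine (D_tri p0 p1 (c2 hc 0 (by simp)) (c2 hc s (by simp)) _).trans ?_
    rw [add_comm, e]
    refine add_le_add (h4 s ⟨hs.1, by linarith [hs.2]⟩) ((D_tri p0 p1 (c2 hc t (by simp)) hg _).trans
      (add_le_add (h4 t ⟨ht'.1, by linarith [ht'.2]⟩) ?_))
    rw [D_comm]
    exact h4 _ ⟨by linarith [hs.1, ht'.1], by linarith [hs.2, ht'.2]⟩
  have h6 : ∀ (c d : ℝ≥0∞) (f : ℝ → ℝ≥0∞), (∀ s ∈ Icc (0 : ℝ) 1, c ≤ d + f s) → c ≤ d + ∫⁻ s, f s :=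
    fun c d f h => by
      have := setLIntegral_mono' (μ := volume) measurableSet_Icc h
      rw [lintegral_add_left measurable_const, setLIntegral_const, setLIntegral_const] at this
      simpa using this.trans (add_le_add le_rfl (setLIntegral_le_lintegral _ _))
  refine (h6 _ ((∫⁻ s, ψ s) + ∫⁻ s, ψ s) ψ fun s hs => ?_).trans_eq ?_
  · refine (h6 _ _ _ (h5 s hs)).trans_eq ?_
    rw [lintegral_add_left m1, lintegral_add_left_eq_self, add_comm]
  · rw [lintegral_const_mul' _ _ (by simp), ← add_mul, ← add_mul]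
    norm_num

omit hc in
lemma core [μ.IsAddRightInvariant] {ε : ℝ} (hε : 0 < ε) : ∃ K : ℝ, ∀ (U : V → ℂ → ℂ) (v : V)
    (M m : ℝ≥0∞), M ≠ ⊤ → m ≤ M → ContinuousOn (fun q : V × ℂ => U q.1 q.2) {q | 0 ≤ q.2.im} →
    (∀ x, DifferentiableOn ℂ (U x) {z | 0 < z.im}) → (∀ x z (s : ℝ), U x (z + s) = U (x + s • v) z) →
    (∀ z : ℂ, 0 ≤ z.im → D μ p (U · z) 0 ≤ M) → (∀ z : ℂ, 0 ≤ z.im → z.im ≤ 1 → D μ p (U · z) 0 ≤ m) →
    D μ p (U · 0) (U · I) ≤ 9 * (.ofReal (2 * π) * .ofReal ε * M + .ofReal K * (.ofReal (2 * π) * m) -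
      .ofReal (2 * π) * .ofReal K * D μ p (U · I) 0) := by
  obtain ⟨K, hK⟩ := st1 (μ := μ) p0 hε
  refine ⟨K, fun U v M m hM hm hc hd ht hb hb' => ?_⟩
  have cI := c2 hc I (by simp)
  have hI := hb I (by simp)
  have l2 := fun k s => (L_ne (rr_lt k) (w_mem s)).2.le
  have hC : ENNReal.ofReal (2 * π) * .ofReal K * D μ p (U · I) 0 ≠ ⊤ := by
    have := ne_top_of_le_ne_top hM hI
    finiteness
  refine (st4 p0 p1 hc ht cI).trans (mul_le_mul_right ((st3 p0 hc (c3 hc) l2 L_tend cI).trans ((liminf_le_liminf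
    (.of_forall fun k => ENNReal.le_sub_of_add_le_right hC ((hK U hc hd k).trans ?_))).trans_eq
      (ENNReal.Tendsto.sub ((ENNReal.Tendsto.const_mul (st2 (c3 hc) l2 L_tend hM hm hb hb')
        (.inr ENNReal.ofReal_ne_top)).const_add _) tendsto_const_nhds (.inr hC)).liminf_eq)) _)
  gcongr
  exact le_max_left _ _

end Pool.Agent.H.MP_48685d_an
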