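import Pool.Agent.H.MP_48685d_an.B
namespace Pool.Agent.H.MP_48685d_an
open Set Filter Topology MeasureTheory Metric Real Complex
open scoped ENNReal

variable {V : Type} [MeasurableSpace V] {μ : Measure V} {p : ℝ} (p0 : 0 < p) (p1 : p ≤ 1)
include p0

lemma fat {f g : V → ℂ} {G : ℕ → V → ℂ} (hf : Measurable f) (hG : ∀ j, Measurable (G j))
    (h : ∀ᵐ x ∂μ, Tendsto (G · x) atTop (𝓝 (g x))) {c : ℝ≥0∞} (hc : ∀ᶠ j in atTop, D μ p f (G j) ≤ c) :
    D μ p f g ≤ c :=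
  (lintegral_congr_ae (h.mono fun x hx => (ENNReal.tendsto_ofReal ((hx.const_sub (f x)).norm.rpow_const
    (.inr p0.le))).liminf_eq.symm)).trans_le ((lintegral_liminf_le fun j => by
      have := hG j; fun_prop).trans (liminf_le_of_frequently_le' hc.frequently))

include p1

lemma lim {ι : Type} {l : Filter ι} [l.NeBot] {s : Set ι} (hs : s ∈ l) {u : ι → V → ℂ}
    (hu : ∀ y ∈ s, Measurable (u y))
    (h : ∀ δ > 0, ∃ y0 ∈ s, ∀ᶠ y in l, D μ p (u y) (u y0) ≤ δ) :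
    ∃ f, Measurable f ∧ Tendsto (fun y => D μ p (u y) f) l (𝓝 0) := by
  choose y y1 y2 using fun k : ℕ => h (2⁻¹ ^ k) (ENNReal.pow_pos (by simp) _)
  have h1 : ∀ j k, k ≤ j → D μ p (u (y k)) (u (y j)) ≤ 2 * 2⁻¹ ^ k := fun j k hk => by
    obtain ⟨z, ⟨z1, z2⟩, z3⟩ := (((y2 j).and (y2 k)).and hs).exists
    rw [D_comm] at z2
    exact (D_tri p0 p1 (hu _ (y1 k)) (hu z z3) _).trans ((add_le_add z2 (z1.trans
      (pow_le_pow_right_of_le_one' (by simp) hk))).trans_eq (two_mul _).symm)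
  have m := fun k => hu _ (y1 k)
  have h2 := ae_lt_top' (μ := μ) (f := fun x => ∑' k, ENNReal.ofReal (‖u (y k) x - u (y (k + 1)) x‖ ^ p))
    (.tsum fun k => by have := m k; have := m (k + 1); fun_prop) (by
      rw [lintegral_tsum fun k => by have := m k; have := m (k + 1); fun_prop]
      refine ne_top_of_le_ne_top ?_ (ENNReal.tsum_le_tsum fun k => h1 (k + 1) k k.le_succ)
      simp [ENNReal.tsum_mul_left, ENNReal.mul_eq_top])
  obtain ⟨f, f1, f2⟩ := measurable_limit_of_tendsto_metrizable_ae (μ := μ) (L := atTop)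
    (fun k => (m k).aemeasurable) (h2.mono fun x hx => by
      have e := ENNReal.summable_toReal hx.ne
      simp only [ENNReal.toReal_ofReal (rpow_nonneg (norm_nonneg _) _)] at e
      refine cauchySeq_tendsto_of_complete (cauchySeq_of_summable_dist (.of_norm_bounded_eventually_nat e
        ((e.tendsto_atTop_zero.eventually (ge_mem_nhds one_pos)).mono fun k hk => ?_)))
      rw [dist_eq_norm, norm_norm]
      exact self_le_rpow_of_le_one (norm_nonneg _)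
        (not_lt.1 fun h => (one_lt_rpow h p0).not_ge hk) p1)
  refine ⟨f, f1, ENNReal.tendsto_nhds_zero.2 fun δ hδ => ?_⟩
  obtain ⟨k, hk⟩ := ((ENNReal.Tendsto.const_mul (a := 3) (ENNReal.tendsto_pow_atTop_nhds_zero_of_lt_one
    (r := 2⁻¹) (by simp)) (.inr (by simp))).eventually (ge_mem_nhds (a := δ) (by simpa))).exists
  filter_upwards [y2 k, hs] with z z1 z2
  refine (fat p0 (hu z z2) m f2 ((eventually_ge_atTop k).mono fun j hj =>
    (D_tri p0 p1 (hu z z2) (m k) _).trans (add_le_add z1 (h1 j k hj)))).trans (le_of_eq_of_le ?_ hk)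
  ring

variable [NormedAddCommGroup V] [NormedSpace ℝ V] [BorelSpace V] [SFinite μ] [μ.IsAddRightInvariant]

lemma cauchy {Γ : Set V} (h1 : IsOpen Γ) [(𝓝[Γ] 0).NeBot]
    (h2 : ∀ y ∈ Γ, ∀ v ∈ Γ, ∀ t : ℝ, 0 ≤ t → y + t • v ∈ Γ) {u : V → V → ℂ}
    (hc : ContinuousOn (fun q : V × V => u q.2 q.1) {q | q.2 ∈ Γ})
    (hd : ∀ y ∈ Γ, ∀ v ∈ Γ, ∀ x, DifferentiableOn ℂ
      (fun z : ℂ => u (y + z.im • v) (x + z.re • v)) {z | 0 < z.im})
    {M : ℝ≥0∞} (hM : M ≠ ⊤) (hb : ∀ y ∈ Γ, D μ p (u y) 0 ≤ M) (δ : ℝ≥0∞) (hδ : 0 < δ) :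
    ∃ y0 ∈ Γ, ∀ᶠ y in 𝓝[Γ] 0, D μ p (u y) (u y0) ≤ δ := by
  obtain ⟨ε, ε0, e1⟩ := ENNReal.exists_nnreal_pos_mul_lt (a := 9 * (.ofReal (2 * π) * M))
    (by finiteness) (ENNReal.half_pos hδ.ne').ne'
  obtain ⟨K, hK⟩ := core (μ := μ) p0 p1 (ε := ε) ε0
  obtain ⟨τ, τ0, e2⟩ := ENNReal.exists_nnreal_pos_mul_lt (a := 9 * (.ofReal (2 * π) * .ofReal K * 2))
    (by finiteness) (ENNReal.half_pos hδ.ne').ne'
  have τ1 : (τ : ℝ≥0∞) ≠ 0 := by simpa using τ0.ne'
  set M' := limsup (fun y => D μ p (u y) 0) (𝓝[Γ] 0)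
  have e3 : M' ≠ ⊤ := ne_top_of_le_ne_top hM
    (limsup_le_of_le (h := eventually_nhdsWithin_of_forall hb))
  obtain ⟨r, r0, hr⟩ := Metric.mem_nhdsWithin_iff.1
    (eventually_lt_of_limsup_lt (ENNReal.lt_add_right e3 τ1))
  have e4 : ∃ᶠ y in 𝓝[Γ] 0, M' ≤ D μ p (u y) 0 + τ := fun h => by
    have h := h.mono fun y hy => not_le.1 hy
    refine (ENNReal.sub_lt_self e3 (ne_zero_of_lt h.exists.choose_spec) τ1).not_ge
      (limsup_le_of_le (h := h.mono fun y hy => ENNReal.le_sub_of_add_le_right (by simp) hy.le))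
  obtain ⟨y0, e5, e6, e7⟩ := (e4.and_eventually (inter_mem (mem_nhdsWithin_of_mem_nhds
    (ball_mem_nhds 0 r0)) self_mem_nhdsWithin)).exists
  refine ⟨y0, e7, ?_⟩
  filter_upwards [self_mem_nhdsWithin, mem_nhdsWithin_of_mem_nhds (ball_mem_nhds 0 r0),
    mem_nhdsWithin_of_mem_nhds ((Continuous.tendsto' (f := fun y => y0 - y) (by fun_prop) 0 y0
      (by simp)).eventually (h1.mem_nhds e7))] with y a1 a2 a3
  have a4 : ∀ z : ℂ, D μ p (fun x => u (y + z.im • (y0 - y)) (x + z.re • (y0 - y))) 0 =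
      D μ p (u (y + z.im • (y0 - y))) 0 := fun z => lintegral_add_right_eq_self (μ := μ)
    (fun x => ENNReal.ofReal (‖u (y + z.im • (y0 - y)) x - 0‖ ^ p)) _
  have := hK (fun x z => u (y + z.im • (y0 - y)) (x + z.re • (y0 - y))) (y0 - y) M (min (M' + τ) M) hM
    (min_le_right _ _) (hc.comp (f := fun q : V × ℂ => (q.1 + q.2.re • (y0 - y), y + q.2.im • (y0 - y)))
      (by fun_prop) fun q hq => h2 y a1 _ a3 _ hq) (hd y a1 _ a3)
    (fun x z s => by simp [add_smul, add_assoc, add_comm (s • _)])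
    (fun z hz => (a4 z).trans_le (hb _ (h2 y a1 _ a3 _ hz))) fun z hz hz' => (a4 z).trans_le (le_min
      (hr ⟨(convex_ball 0 r).add_smul_sub_mem a2 e6 ⟨hz, hz'⟩, h2 y a1 _ a3 _ hz⟩).le
      (hb _ (h2 y a1 _ a3 _ hz)))
  simp only [zero_im, zero_re, I_im, I_re, zero_smul, one_smul, add_zero, add_sub_cancel,
    ENNReal.ofReal_coe_nnreal] at this
  refine this.trans ((mul_le_mul_right (tsub_le_iff_right.2 (?_ : _ ≤ .ofReal (2 * π) * ε * M +
    .ofReal (2 * π) * .ofReal K * 2 * τ + _)) _).trans ?_)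
  · refine (add_le_add le_rfl (mul_le_mul_right (mul_le_mul_right ((min_le_left _ _).trans
      (add_le_add e5 le_rfl)) _) _)).trans_eq ?_
    ring
  · refine le_of_eq_of_le ?_ ((add_le_add e1.le e2.le).trans_eq (ENNReal.add_halves δ))
    ring

end Pool.Agent.H.MP_48685d_an
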